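import Pool.Agent.W363.JQ.Stm

set_option autoImplicit false
open Filter Topology Set Metric

namespace Pool.Agent.W628.JQ

open Pool.Agent.W363.JQ

/-- the abstract argument at a repelling fixed point -/
lemma lt_of_inv (h : S_dist) (F ψ : ℂ → ℂ) (a b : ℂ) (r : ℝ) (A B : Set ℂ) (hr : 0 < r)
    (hψd : DifferentiableOn ℂ ψ (ball a r))
    (hψl : ∀ u ∈ ball a r, ∀ v ∈ ball a r, dist (ψ u) (ψ v) ≤ dist u v / 2)
    (hinv : ∀ u ∈ ball a r, F (ψ u) = u) (hψa : ψ a = a) (hFd : DifferentiableAt ℂ F a)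
    (hA : IsCompact A) (hB : IsCompact B) (hab : a ≠ b)
    (hAB : ∀ z ∈ A, z ∈ B → z = a ∨ z = b)
    (hiA : ∃ η : ℝ, 0 < η ∧ ∀ x ∈ A, dist x a < η → F x ∈ A)
    (hiB : ∃ η : ℝ, 0 < η ∧ ∀ x ∈ B, dist x a < η → F x ∈ B) : LT A B a := by
  have har : a ∈ ball a r := mem_ball_self hr
  have hFa : F a = a := by
    have := hinv a har
    rwa [hψa] at this
  have hψan : AnalyticAt ℂ ψ a := hψd.analyticAt (isOpen_ball.mem_nhds har)
  have hder : deriv ψ a ≠ 0 := by
    intro h0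
    have h1 : HasDerivAt ψ (deriv ψ a) a := hψan.differentiableAt.hasDerivAt
    have h2 : HasDerivAt (fun u => F (ψ u)) (deriv F (ψ a) * deriv ψ a) a := by
      have h3 : HasDerivAt F (deriv F (ψ a)) (ψ a) := by
        rw [hψa]
        exact hFd.hasDerivAt
      exact h3.comp a h1
    have h3 : HasDerivAt (fun u => F (ψ u)) 1 a := by
      refine (hasDerivAt_id a).congr_of_eventuallyEq ?_
      filter_upwards [isOpen_ball.mem_nhds har] with u hu
      exact hinv u hu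
    have h4 := h2.unique h3
    rw [h0, mul_zero] at h4
    exact zero_ne_one h4
  obtain ⟨ρ, hρ0, hρr, c, hc0, C, hC0, hd⟩ := h ψ a r hr hψd hψl hψa hder
  set ρ' : ℝ := min ρ (dist a b) / 2 with hρ'
  have hdab : 0 < dist a b := dist_pos.mpr hab
  have hρ'0 : 0 < ρ' := by positivity
  have hρ'ρ : ρ' < ρ := by
    have := min_le_left ρ (dist a b)
    have : ρ' ≤ ρ / 2 := by rw [hρ']; linarith
    linarith
  have hρ'ab : ρ' < dist a b := by
    have := min_le_right ρ (dist a b)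
    have : ρ' ≤ dist a b / 2 := by rw [hρ']; linarith
    linarith
  have hAB' : ∀ z ∈ A, z ∈ B → dist z a ≤ ρ' → z = a := by
    intro z hzA hzB hz
    rcases hAB z hzA hzB with h | h
    · exact h
    · exfalso
      rw [h, dist_comm] at hz
      linarith
  -- local inverse
  have hnh : ψ '' ball a ρ' ∈ 𝓝 a := by
    have h1 := hψan.hasStrictDerivAt.map_nhds_eq hder
    rw [hψa] at h1
    rw [← h1]
    exact image_mem_map (isOpen_ball.mem_nhds (mem_ball_self hρ'0))
  obtain ⟨η₁, hη₁, hη₁s⟩ := Metric.mem_nhds_iff.mp hnh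
  obtain ⟨η₂, hη₂, hη₂s⟩ := hiA
  obtain ⟨η₃, hη₃, hη₃s⟩ := hiB
  set η := min (min η₁ ρ') (min η₂ η₃) with hη
  have hη0 : 0 < η := by positivity
  have e1 : η ≤ η₁ := (min_le_left _ _).trans (min_le_left _ _)
  have e2 : η ≤ ρ' := (min_le_left _ _).trans (min_le_right _ _)
  have e3 : η ≤ η₂ := (min_le_right _ _).trans (min_le_left _ _)
  have e4 : η ≤ η₃ := (min_le_right _ _).trans (min_le_right _ _)
  have hloc : ∀ u, dist u a < η → dist (F u) a < ρ' ∧ ψ (F u) = u := by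
    intro u hu
    obtain ⟨w, hw, hwu⟩ := hη₁s (mem_ball.mpr (lt_of_lt_of_le hu e1))
    have hwr : w ∈ ball a r := mem_ball.mpr (by
      have := mem_ball.mp hw
      linarith)
    have h1 : F u = w := by rw [← hwu]; exact hinv w hwr
    rw [h1]
    exact ⟨mem_ball.mp hw, hwu⟩
  have hhalf : ∀ u, dist u a < η → 2 * dist u a ≤ dist (F u) a := by
    intro u hu
    obtain ⟨h1, h2⟩ := hloc u hu
    have h3 := hψl (F u) (mem_ball.mpr (by linarith)) a har
    rw [h2, hψa] at h3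
    linarith
  -- the minimal distance
  obtain ⟨m, hm0, hm⟩ : ∃ m : ℝ, 0 < m ∧ ∀ u ∈ A, ∀ v ∈ B, dist u a ≤ ρ' → dist v a ≤ ρ' →
      η ≤ max (dist u a) (dist v a) → m ≤ dist u v := by
    set K : Set (ℂ × ℂ) := (A ×ˢ B) ∩ {p | dist p.1 a ≤ ρ' ∧ dist p.2 a ≤ ρ' ∧
      η ≤ max (dist p.1 a) (dist p.2 a)} with hK
    have hKc : IsCompact K := by
      apply (hA.prod hB).inter_right
      have c1 : Continuous (fun p : ℂ × ℂ => dist p.1 a) := by fun_prop
      have c2 : Continuous (fun p : ℂ × ℂ => dist p.2 a) := by fun_prop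
      exact (isClosed_le c1 continuous_const).inter ((isClosed_le c2 continuous_const).inter
        (isClosed_le continuous_const (c1.max c2)))
    rcases K.eq_empty_or_nonempty with hKe | hKn
    · refine ⟨1, one_pos, fun u hu v hv h1 h2 h3 => ?_⟩
      exfalso
      have : (u, v) ∈ K := ⟨⟨hu, hv⟩, h1, h2, h3⟩
      rw [hKe] at this
      exact this
    · obtain ⟨p, hp, hpm⟩ := hKc.exists_isMinOn hKn (f := fun p : ℂ × ℂ => dist p.1 p.2)
        (by fun_prop)
      refine ⟨dist p.1 p.2, ?_, fun u hu v hv h1 h2 h3 => hpm (show (u, v) ∈ K from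
        ⟨⟨hu, hv⟩, h1, h2, h3⟩)⟩
      obtain ⟨⟨hpA, hpB⟩, q1, q2, q3⟩ := hp
      rw [dist_pos]
      intro heq
      have h5 : p.1 = a := hAB' p.1 hpA (heq ▸ hpB) q1
      rw [← heq, h5, dist_self, max_self] at q3
      linarith
  refine ⟨C * ρ' / (c * m), by positivity, η, hη0, ?_⟩
  intro x hx hxa y hy hya
  by_cases hxe : x = a
  · rw [hxe, dist_self]
    positivity
  -- the escape time
  have hex : ∃ n : ℕ, η ≤ max (dist (F^[n] x) a) (dist (F^[n] y) a) := by
    by_contra hcon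
    push_neg at hcon
    have h1 : ∀ n : ℕ, 2 ^ n * dist x a ≤ dist (F^[n] x) a := by
      intro n
      induction n with
      | zero => simp
      | succ n ih =>
        have h2 := hhalf (F^[n] x) (lt_of_le_of_lt (le_max_left _ _) (hcon n))
        rw [Function.iterate_succ_apply']
        rw [pow_succ]
        linarith
    have h2 : ∀ n : ℕ, (2:ℝ) ^ n * dist x a < η := fun n =>
      lt_of_le_of_lt (h1 n) (lt_of_le_of_lt (le_max_left _ _) (hcon n))
    have h3 : 0 < dist x a := dist_pos.mpr hxe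
    obtain ⟨n, hn⟩ := pow_unbounded_of_one_lt (η / dist x a) (by norm_num : (1:ℝ) < 2)
    rw [div_lt_iff₀ h3] at hn
    linarith [h2 n]
  classical
  set n := Nat.find hex with hn
  have hnspec : η ≤ max (dist (F^[n] x) a) (dist (F^[n] y) a) := Nat.find_spec hex
  have hlt : ∀ k < n, dist (F^[k] x) a < η ∧ dist (F^[k] y) a < η := by
    intro k hk
    have := Nat.find_min hex hk
    push_neg at this
    exact ⟨lt_of_le_of_lt (le_max_left _ _) this, lt_of_le_of_lt (le_max_right _ _) this⟩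
  have hmem : ∀ k ≤ n, F^[k] x ∈ A ∧ F^[k] y ∈ B ∧ ψ^[k] (F^[k] x) = x ∧ ψ^[k] (F^[k] y) = y := by
    intro k
    induction k with
    | zero => intro _; exact ⟨hx, hy, rfl, rfl⟩
    | succ k ih =>
      intro hk
      obtain ⟨i1, i2, i3, i4⟩ := ih (by omega)
      obtain ⟨j1, j2⟩ := hlt k (by omega)
      refine ⟨?_, ?_, ?_, ?_⟩
      · rw [Function.iterate_succ_apply']
        exact hη₂s _ i1 (lt_of_lt_of_le j1 e3)
      · rw [Function.iterate_succ_apply']
        exact hη₃s _ i2 (lt_of_lt_of_le j2 e4)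
      · rw [Function.iterate_succ_apply' F, Function.iterate_succ_apply ψ, (hloc _ j1).2, i3]
      · rw [Function.iterate_succ_apply' F, Function.iterate_succ_apply ψ, (hloc _ j2).2, i4]
  have hnpos : n ≠ 0 := by
    intro h0
    rw [h0] at hnspec
    simp only [Function.iterate_zero, id] at hnspec
    rcases le_max_iff.mp hnspec with h | h <;> linarith
  obtain ⟨k, hk⟩ := Nat.exists_eq_succ_of_ne_zero hnpos
  have hball : dist (F^[n] x) a < ρ' ∧ dist (F^[n] y) a < ρ' := by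
    obtain ⟨j1, j2⟩ := hlt k (by omega)
    rw [hk, Nat.succ_eq_add_one, Function.iterate_succ_apply', Function.iterate_succ_apply']
    exact ⟨(hloc _ j1).1, (hloc _ j2).1⟩
  obtain ⟨k1, k2, k3, k4⟩ := hmem n le_rfl
  have hmm := hm _ k1 _ k2 hball.1.le hball.2.le hnspec
  have hψna : ψ^[n] a = a := Function.iterate_fixed hψa n
  have d1 := (hd n (F^[n] x) (mem_ball.mpr (by linarith [hball.1])) (F^[n] y)
    (mem_ball.mpr (by linarith [hball.2]))).1
  have d2 := (hd n (F^[n] x) (mem_ball.mpr (by linarith [hball.1])) a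
    (mem_ball_self hρ0)).2
  rw [k3, k4] at d1
  rw [k3, hψna] at d2
  have hlam : 0 < ‖deriv ψ a‖ ^ n := pow_pos (norm_pos_iff.mpr hder) n
  have d3 : c * ‖deriv ψ a‖ ^ n * m ≤ dist x y :=
    (mul_le_mul_of_nonneg_left hmm (by positivity)).trans d1
  have d4 : dist x a ≤ C * ‖deriv ψ a‖ ^ n * ρ' :=
    d2.trans (mul_le_mul_of_nonneg_left hball.1.le (by positivity))
  calc dist x a ≤ C * ‖deriv ψ a‖ ^ n * ρ' := d4
    _ = C * ρ' / (c * m) * (c * ‖deriv ψ a‖ ^ n * m) := by field_simp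
    _ ≤ C * ρ' / (c * m) * dist x y := mul_le_mul_of_nonneg_left d3 (by positivity)

/-- compactness -/
lemma unif (φ : ℝ → ℂ) (hφ : Continuous φ) (a : ℂ) (K : Set ℝ) (hK : IsCompact K) (P : ℝ → Prop)
    (h : ∀ θ ∈ K, φ θ = a → ∀ᶠ t in 𝓝[K] θ, P t) :
    ∃ η : ℝ, 0 < η ∧ ∀ t ∈ K, dist (φ t) a < η → P t := by
  refine hK.induction_on (p := fun S => ∃ η : ℝ, 0 < η ∧ ∀ t ∈ S, dist (φ t) a < η → P t)
    ⟨1, one_pos, fun t ht => absurd ht (notMem_empty t)⟩ ?_ ?_ ?_
  · rintro s t hst ⟨η, h1, h2⟩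
    exact ⟨η, h1, fun x hx => h2 x (hst hx)⟩
  · rintro s t ⟨η, h1, h2⟩ ⟨η', h1', h2'⟩
    refine ⟨min η η', lt_min h1 h1', ?_⟩
    rintro x (hx | hx) hd
    · exact h2 x hx (lt_of_lt_of_le hd (min_le_left _ _))
    · exact h2' x hx (lt_of_lt_of_le hd (min_le_right _ _))
  · intro θ hθ
    by_cases hθa : φ θ = a
    · exact ⟨{t | P t}, h θ hθ hθa, 1, one_pos, fun t ht _ => ht⟩
    · have hpos : 0 < dist (φ θ) a := dist_pos.mpr hθa
      have hcont : ContinuousAt (fun t => dist (φ t) a) θ := by fun_prop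
      have hev : ∀ᶠ t in 𝓝 θ, dist (φ θ) a / 2 < dist (φ t) a :=
        hcont.eventually_const_lt (by linarith)
      refine ⟨{t | dist (φ θ) a / 2 < dist (φ t) a}, mem_nhdsWithin_of_mem_nhds hev,
        dist (φ θ) a / 2, by positivity, fun t ht hd => ?_⟩
      exact absurd hd (not_lt.mpr (le_of_lt ht))

lemma per_int {φ : ℝ → ℂ} (hper : ∀ t, φ (t + 1) = φ t) (t : ℝ) (k : ℤ) : φ (t + k) = φ t := by
  have h : Function.Periodic φ 1 := hper
  have := h.int_mul k t
  rwa [mul_one] at this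

/-- local invariance of an arc at a fixed point -/
lemma arc_inv (F : ℂ → ℂ) (D : ℕ) (φ : ℝ → ℂ) (hD : 1 ≤ D) (hφ : Continuous φ)
    (hper : ∀ t, φ (t + 1) = φ t) (hconj : ∀ t, F (φ t) = φ (D * t)) (a : ℂ)
    (hfix : ∀ t : ℝ, φ t = a → ∃ k : ℤ, (D : ℝ) * t = t + k) (s e : ℝ) :
    ∃ η : ℝ, 0 < η ∧ ∀ x ∈ arc φ s e, dist x a < η → F x ∈ arc φ s e := by
  obtain ⟨η, h1, h2⟩ := unif φ hφ a (Icc s e) isCompact_Icc (fun t => F (φ t) ∈ arc φ s e) (by
    intro θ hθ hθa
    obtain ⟨k, hk⟩ := hfix θ hθa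
    have hD0 : (0:ℝ) < D := by exact_mod_cast hD
    have key : ∀ t : ℝ, F (φ t) = φ (θ + D * (t - θ)) := by
      intro t
      rw [hconj, ← per_int hper (θ + D * (t - θ)) k]
      congr 1
      linarith
    have hc : Tendsto (fun t : ℝ => θ + D * (t - θ)) (𝓝 θ) (𝓝 θ) := by
      have : ContinuousAt (fun t : ℝ => θ + D * (t - θ)) θ := by fun_prop
      have h3 := this.tendsto
      simpa using h3
    have hup : ∀ᶠ t in 𝓝[Icc s e] θ, θ + D * (t - θ) ≤ e := by
      rcases lt_or_eq_of_le hθ.2 with h | h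
      · exact ((hc.eventually_lt_const h).mono fun t ht => ht.le).filter_mono nhdsWithin_le_nhds
      · filter_upwards [self_mem_nhdsWithin] with t ht
        rw [h]
        have : (D:ℝ) * (t - e) ≤ 0 := mul_nonpos_of_nonneg_of_nonpos hD0.le (by linarith [ht.2])
        linarith
    have hlo : ∀ᶠ t in 𝓝[Icc s e] θ, s ≤ θ + D * (t - θ) := by
      rcases lt_or_eq_of_le hθ.1 with h | h
      · exact ((hc.eventually_const_lt h).mono fun t ht => ht.le).filter_mono nhdsWithin_le_nhds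
      · filter_upwards [self_mem_nhdsWithin] with t ht
        rw [← h]
        have : 0 ≤ (D:ℝ) * (t - s) := mul_nonneg hD0.le (by linarith [ht.1])
        linarith
    filter_upwards [hup, hlo] with t ht1 ht2
    rw [key]
    exact ⟨_, ⟨ht2, ht1⟩, rfl⟩)
  refine ⟨η, h1, ?_⟩
  rintro x ⟨t, ht, rfl⟩ hd
  exact h2 t ht hd

theorem ltab (h : S_dist) : S_LTab := by
  intro F r φ α β ψ₀ ψ₁ H P
  have hr : 0 < r := H.ex.1
  have hD : 1 ≤ F.natDegree := by have := H.deg; omega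
  have hD0 : (0:ℝ) < F.natDegree := by exact_mod_cast hD
  have hA : IsCompact (arc φ α β) := isCompact_Icc.image H.cont
  have hB : IsCompact (arc φ β (α + 1)) := isCompact_Icc.image H.cont
  have hAB : ∀ z ∈ arc φ α β, z ∈ arc φ β (α + 1) → z = φ α ∨ z = φ β := by
    rintro z ⟨t, ht, rfl⟩ ⟨u, hu, hut⟩
    rcases eq_or_lt_of_le ht.1 with h1 | h1
    · left; rw [h1]
    rcases eq_or_lt_of_le ht.2 with h2 | h2
    · right; rw [h2]
    exfalso
    obtain ⟨k, hk⟩ := H.sat t ⟨h1, h2⟩ u hut.symm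
    rcases le_or_gt k (-1) with hk1 | hk1
    · have : (k:ℝ) ≤ -1 := by exact_mod_cast hk1
      linarith [hk.1, hu.2]
    · have : (0:ℝ) ≤ k := by exact_mod_cast (by omega : 0 ≤ k)
      linarith [hk.2, hu.1]
  have e0 : ψ₀ (φ α) = φ α := by
    have := P.eq0 α ⟨le_rfl, H.ab.le⟩
    simpa using this
  have e1 : ψ₁ (φ β) = φ β := by
    have := P.eq1 β ⟨H.ab.le, le_rfl⟩
    simpa using this
  constructor
  · exact lt_of_inv h (fun z => F.eval z) ψ₀ (φ α) (φ β) r _ _ hr P.dif0 P.lip0 P.inv0 e0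
      F.differentiable.differentiableAt hA hB H.ne hAB
      (arc_inv _ F.natDegree φ hD H.cont H.per H.conj _ H.fixα α β)
      (arc_inv _ F.natDegree φ hD H.cont H.per H.conj _ H.fixα β (α + 1))
  · exact lt_of_inv h (fun z => F.eval z) ψ₁ (φ β) (φ α) r _ _ hr P.dif1 P.lip1 P.inv1 e1
      F.differentiable.differentiableAt hA hB H.ne.symm (fun z h1 h2 => (hAB z h1 h2).symm)
      (arc_inv _ F.natDegree φ hD H.cont H.per H.conj _ H.fixβ α β)
      (arc_inv _ F.natDegree φ hD H.cont H.per H.conj _ H.fixβ β (α + 1))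

end Pool.Agent.W628.JQ
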