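import Pool.Agent.W363.JQ.Stm

set_option autoImplicit false
open Filter Topology Set Metric

namespace Pool.Agent.W628.JQ

open Pool.Agent.W363.JQ

/-- the exterior of a disc is connected -/
lemma ext_conn (R : ℝ) (hR : 0 < R) : IsPreconnected {z : ℂ | R ≤ ‖z‖} := by
  have h1 : IsPreconnected ((Ici R) ×ˢ (sphere (0:ℂ) 1)) :=
    isPreconnected_Ici.prod (isPreconnected_sphere (by
      rw [Complex.rank_real_complex]; norm_num) 0 1)
  have h2 := h1.image (fun p : ℝ × ℂ => (p.1 : ℂ) * p.2) (by fun_prop)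
  convert h2 using 1
  ext z
  simp only [mem_setOf_eq, mem_image, mem_prod, mem_Ici, mem_sphere, dist_zero_right, Prod.exists]
  constructor
  · intro hz
    have hz0 : z ≠ 0 := by
      rintro rfl
      rw [norm_zero] at hz
      linarith
    refine ⟨‖z‖, z / ‖z‖, ⟨hz, ?_⟩, ?_⟩
    · rw [norm_div, Complex.norm_real, norm_norm, div_self (norm_ne_zero_iff.mpr hz0)]
    · have : (‖z‖ : ℂ) ≠ 0 := by exact_mod_cast norm_ne_zero_iff.mpr hz0
      field_simp
  · rintro ⟨s, u, ⟨hs, hu⟩, rfl⟩
    rw [norm_mul, Complex.norm_real, hu, mul_one]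
    exact hs.trans (le_abs_self s)

/-- two preimages of a noncritical value -/
lemma two_roots (f : Polynomial ℂ) (hd : 2 ≤ f.natDegree) (x : ℂ) (hx : CVfree f x) :
    ∃ z1 z2 : ℂ, z1 ≠ z2 ∧ f.eval z1 = x ∧ f.eval z2 = x := by
  classical
  set p := f - Polynomial.C x with hp
  have hdeg : p.natDegree = f.natDegree := Polynomial.natDegree_sub_C
  have hp0 : p ≠ 0 := by
    intro h0
    rw [h0, Polynomial.natDegree_zero] at hdeg
    omega
  have hcard : p.roots.card = f.natDegree := by
    rw [← hdeg]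
    exact IsAlgClosed.card_roots_eq_natDegree
  have hnd : p.roots.Nodup := by
    rw [Multiset.nodup_iff_count_le_one]
    intro z
    rw [Polynomial.count_roots]
    by_contra hcon
    push_neg at hcon
    rw [Polynomial.one_lt_rootMultiplicity_iff_isRoot hp0] at hcon
    obtain ⟨h2, h1⟩ := hcon
    have h3 : f.derivative.eval z = 0 := by
      have : p.derivative = f.derivative := by
        rw [hp, Polynomial.derivative_sub, Polynomial.derivative_C, sub_zero]
      rw [← this]
      exact h1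
    have h4 : f.eval z = x := by
      have h5 : p.eval z = 0 := h2
      rw [hp, Polynomial.eval_sub, Polynomial.eval_C] at h5
      linear_combination h5
    exact hx z h3 h4
  have hcard2 : 1 < p.roots.toFinset.card := by
    rw [Multiset.toFinset_card_of_nodup hnd, hcard]
    omega
  obtain ⟨z1, h1, z2, h2, h12⟩ := Finset.one_lt_card.mp hcard2
  have hev : ∀ z ∈ p.roots.toFinset, f.eval z = x := by
    intro z hz
    rw [Multiset.mem_toFinset, Polynomial.mem_roots hp0] at hz
    have h5 : p.eval z = 0 := hz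
    rw [hp, Polynomial.eval_sub, Polynomial.eval_C] at h5
    linear_combination h5
  exact ⟨z1, z2, h12, hev z1 h1, hev z2 h2⟩

theorem nint (h1 : S_basic) (h2 : S_comp) (h3 : S_rmt) (h4 : S_branch) : S_nint := by
  intro f hyp
  have hB : Bas f := h1 f hyp.deg
  by_contra hne
  rw [not_nonempty_iff_eq_empty] at hne
  have hKJ : JJ f = KK f := by
    unfold JJ
    rw [hB.cpt.isClosed.frontier_eq, hne, diff_empty]
  have hKpre : IsPreconnected (KK f) := by
    rw [← hKJ]
    exact hyp.conn.isPreconnected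
  obtain ⟨x0, hx0⟩ := hB.jne
  rw [hKJ] at hx0
  -- no critical point in `K`
  have hcp : ∀ c, f.derivative.eval c = 0 → c ∉ KK f := by
    intro c hc hcK
    have h5 : c ∈ PC f := by
      apply subset_closure
      simp only [mem_iUnion]
      exact ⟨c, hc, ⟨0, rfl⟩⟩
    exact disjoint_left.mp hyp.disj h5 (by rw [hKJ]; exact hcK)
  set CV : Set ℂ := {v | ∃ c, f.derivative.eval c = 0 ∧ f.eval c = v} with hCV
  have hder0 : f.derivative ≠ 0 := by
    intro h0
    have := Polynomial.natDegree_eq_zero_of_derivative_eq_zero h0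
    have := hyp.deg
    omega
  have hCVfin : CV.Finite := by
    have : CV ⊆ (fun c => f.eval c) '' (f.derivative.roots.toFinset : Set ℂ) := by
      rintro v ⟨c, hc, hv⟩
      refine ⟨c, ?_, hv⟩
      simp only [Finset.mem_coe, Multiset.mem_toFinset]
      rw [Polynomial.mem_roots hder0]
      exact hc
    exact ((Finset.finite_toSet _).image _).subset this
  have hCVK : ∀ v ∈ CV, v ∉ KK f := by
    rintro v ⟨c, hc, rfl⟩ hv
    exact hcp c hc ((hB.invK c).mp hv)
  -- the radius
  obtain ⟨R, hR0, hR⟩ := hB.cpt.isBounded.subset_ball_lt 0 0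
  have hRK : (R : ℂ) ∉ KK f := by
    intro h
    have := hR h
    rw [mem_ball, dist_zero_right, Complex.norm_real, Real.norm_of_nonneg hR0.le] at this
    exact lt_irrefl _ this
  have hopen : IsOpen (KK f)ᶜ := hB.cpt.isClosed.isOpen_compl
  have hpath : IsPathConnected (KK f)ᶜ := hopen.isConnected_iff_isPathConnected.mp hB.cconn
  have hP : ∀ v ∈ CV, ∃ P : Set ℂ, IsCompact P ∧ IsPreconnected P ∧ P ⊆ (KK f)ᶜ ∧ v ∈ P ∧
      (R : ℂ) ∈ P := by
    intro v hv
    have hj := hpath.joinedIn v (hCVK v hv) (R : ℂ) hRK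
    refine ⟨range hj.somePath, isCompact_range hj.somePath.continuous,
      isPreconnected_range hj.somePath.continuous, ?_, ⟨0, by simp⟩, ⟨1, by simp⟩⟩
    rintro _ ⟨t, rfl⟩
    exact hj.somePath_mem t
  choose! P hPc hPp hPs hPv hPR using hP
  set E : Set ℂ := {z : ℂ | R ≤ ‖z‖} with hE
  set Γ : Set ℂ := E ∪ ⋃ v ∈ CV, P v with hΓ
  have hEcl : IsClosed E := isClosed_le continuous_const continuous_norm
  have hΓcl : IsClosed Γ := hEcl.union (hCVfin.isClosed_biUnion fun v hv => (hPc v hv).isClosed)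
  have hRE : (R : ℂ) ∈ E := by
    show R ≤ ‖(R : ℂ)‖
    rw [Complex.norm_real]
    exact le_abs_self R
  have hΓconn : IsConnected Γ := by
    refine ⟨⟨R, Or.inl hRE⟩, ?_⟩
    have h5 := isPreconnected_sUnion (R : ℂ) (insert E (P '' CV)) (by
      rintro s (rfl | ⟨v, hv, rfl⟩)
      · exact hRE
      · exact hPR v hv) (by
      rintro s (rfl | ⟨v, hv, rfl⟩)
      · exact ext_conn R hR0
      · exact hPp v hv)
    rw [sUnion_insert, sUnion_image] at h5
    exact h5
  have hΓK : Disjoint (KK f) Γ := by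
    rw [disjoint_left]
    rintro z hz (h | h)
    · have := hR hz
      rw [mem_ball, dist_zero_right] at this
      exact absurd h (not_le.mpr this)
    · simp only [mem_iUnion] at h
      obtain ⟨v, hv, hz'⟩ := h
      exact hPs v hv hz' hz
  have hKsub : KK f ⊆ Γᶜ := fun z hz => disjoint_left.mp hΓK hz
  set V : Set ℂ := connectedComponentIn Γᶜ x0 with hV
  have hVopen : IsOpen V := hΓcl.isOpen_compl.connectedComponentIn
  have hx0V : x0 ∈ V := mem_connectedComponentIn (hKsub hx0)
  have hVconn : IsConnected V := isConnected_connectedComponentIn_iff.mpr (hKsub hx0)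
  have hKV : KK f ⊆ V := hKpre.subset_connectedComponentIn hx0 hKsub
  have hVsub : V ⊆ Γᶜ := connectedComponentIn_subset _ _
  have hVb : Bornology.IsBounded V := by
    apply (isBounded_ball (x := (0:ℂ)) (r := R)).subset
    intro z hz
    rw [mem_ball, dist_zero_right]
    by_contra hcon
    push_neg at hcon
    exact hVsub hz (Or.inl hcon)
  have hVfr : frontier V ⊆ Γ := by
    intro z hz
    by_contra hzΓ
    have hz1 : z ∈ closure V := hz.1
    have hz2 : z ∉ V := by
      intro h
      have := hz.2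
      rw [hVopen.interior_eq] at this
      exact this h
    set W := connectedComponentIn Γᶜ z with hW
    have hWo : IsOpen W := hΓcl.isOpen_compl.connectedComponentIn
    have hzW : z ∈ W := mem_connectedComponentIn hzΓ
    obtain ⟨y, hyW, hyV⟩ := mem_closure_iff.mp hz1 W hWo hzW
    have e1 : W = connectedComponentIn Γᶜ y := connectedComponentIn_eq hyW
    have e2 : V = connectedComponentIn Γᶜ y := connectedComponentIn_eq hyV
    rw [e1, ← e2] at hzW
    exact hz2 hzW
  have hVdisj : Disjoint V Γ := by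
    rw [disjoint_left]
    exact fun z hz => hVsub hz
  have hVc := h2 Γ V hΓcl hΓconn hVopen hVconn hVdisj hVfr
  obtain ⟨ψ, χ, hψd, hχd, hψ0, hψ, hχ⟩ := h3 V x0 hVopen hVconn hVb hVc hx0V
  have hΓCV : ∀ v ∈ CV, v ∈ Γ := fun v hv => Or.inr (mem_biUnion hv (hPv v hv))
  have hx0CV : CVfree f x0 := by
    intro c hc hcx
    exact hCVK x0 ⟨c, hc, hcx⟩ hx0
  obtain ⟨z1, z2, h12, hz1, hz2⟩ := two_roots f hyp.deg x0 hx0CV
  have hz1K : z1 ∈ KK f := (hB.invK z1).mp (by rw [hz1]; exact hx0)
  have hz2K : z2 ∈ KK f := (hB.invK z2).mp (by rw [hz2]; exact hx0)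
  have hχ0 : χ 0 = x0 := by
    have := (hψ x0 hx0V).2
    rwa [hψ0] at this
  obtain ⟨g, hgd, hg0, hg⟩ := h4 f (by have := hyp.deg; omega) 0 1 χ hχd (by
    intro u hu c hc hcu
    have h5 : χ u ∈ V := (hχ u hu).1
    exact hVsub h5 (hΓCV _ ⟨c, hc, hcu⟩)) 0 (mem_ball_self one_pos) z1 (by rw [hz1, hχ0])
  set h : ℂ → ℂ := fun v => g (ψ v) with hh
  have hhcont : ContinuousOn h V :=
    hgd.continuousOn.comp hψd.continuousOn (fun v hv => (hψ v hv).1)
  have hfh : ∀ v ∈ V, f.eval (h v) = v := by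
    intro v hv
    have h5 := hg (ψ v) (hψ v hv).1
    rw [(hψ v hv).2] at h5
    exact h5
  have hhx0 : h x0 = z1 := by
    simp only [hh]
    rw [hψ0, hg0]
  -- the clopen set
  set C : Set ℂ := h '' KK f with hC
  have hCcl : IsClosed C := (hB.cpt.image_of_continuousOn (hhcont.mono hKV)).isClosed
  have hCK : C ⊆ KK f := by
    rintro _ ⟨v, hv, rfl⟩
    rw [← hB.invK, hfh v (hKV hv)]
    exact hv
  have hopenC : ∀ y ∈ C, ∀ᶠ y' in 𝓝 y, y' ∈ KK f → y' ∈ C := by
    rintro y ⟨v, hv, rfl⟩
    have hyK : h v ∈ KK f := hCK ⟨v, hv, rfl⟩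
    have hd : f.derivative.eval (h v) ≠ 0 := fun h0 => hcp _ h0 hyK
    have hsd : HasStrictDerivAt (fun z => f.eval z) (f.derivative.eval (h v)) (h v) :=
      f.hasStrictDerivAt (h v)
    have hli := hsd.eventually_left_inverse hd
    set L := hsd.localInverse (fun z => f.eval z) (f.derivative.eval (h v)) (h v) hd with hL
    -- `h (f y') → h v`
    have hcont : Tendsto (fun y' => h (f.eval y')) (𝓝 (h v)) (𝓝 (h v)) := by
      have c1 : ContinuousAt h v := hhcont.continuousAt (hVopen.mem_nhds (hKV hv))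
      have c2 : Tendsto (fun y' : ℂ => f.eval y') (𝓝 (h v)) (𝓝 v) := by
        have := f.continuous.tendsto (h v)
        rwa [hfh v (hKV hv)] at this
      exact c1.tendsto.comp c2
    have hli2 := hcont.eventually hli
    filter_upwards [hli, hli2] with y' e1 e2 hy'
    have hfy : f.eval y' ∈ KK f := (hB.invK y').mpr hy'
    refine ⟨f.eval y', hfy, ?_⟩
    rw [hfh _ (hKV hfy), e1] at e2
    exact e2.symm
  have hKC : KK f ⊆ C := by
    have hps : PreconnectedSpace (KK f) := isPreconnected_iff_preconnectedSpace.mp hKpre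
    set C' : Set (KK f) := {y | (y : ℂ) ∈ C} with hC'
    have hcl : IsClosed C' := hCcl.preimage continuous_subtype_val
    have hop : IsOpen C' := by
      rw [isOpen_iff_mem_nhds]
      intro y hy
      have h5 := hopenC y hy
      have h6 : ∀ᶠ z : KK f in 𝓝 y, (z : ℂ) ∈ KK f → (z : ℂ) ∈ C :=
        (continuous_subtype_val.tendsto y).eventually h5
      filter_upwards [h6] with z hz
      exact hz z.2
    have huniv := IsClopen.eq_univ ⟨hcl, hop⟩ ⟨⟨h x0, hCK ⟨x0, hx0, rfl⟩⟩, ⟨x0, hx0, rfl⟩⟩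
    intro y hy
    have : (⟨y, hy⟩ : KK f) ∈ C' := by rw [huniv]; trivial
    exact this
  obtain ⟨v, hv, hvz⟩ := hKC hz2K
  have h5 : v = x0 := by
    rw [← hfh v (hKV hv), hvz, hz2]
  rw [h5, hhx0] at hvz
  exact h12 hvz

end Pool.Agent.W628.JQ
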